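import Pool.Agent.Y94.EQ.Den

/-!
# The limit points of the mean traces of totally positive algebraic integers
-/

open MeasureTheory Polynomial Pool.Agent.W401.SSS

namespace Pool.Agent.Results.MP_8ca0c8_nt.LimitPoints

/-- The set of limit points of the mean traces of totally positive algebraic integers is a closed
half line `[lam,∞)`. There is an arithmetic probability measure `μ` with compact support in
`[0,∞)` and energy `0` whose mean is `lam`, every other arithmetic probability measure with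
compact support in `[0,∞)` has a larger mean, and totally positive algebraic integers with mean
trace close to `lam` have conjugates distributed almost like `μ` (for test functions of linear
growth) and small discriminants. -/
theorem result :
    ∃ lam : ℝ,
      (∀ x : ℝ, (∀ ε : ℝ, 0 < ε →
        (Pool.Agent.Y94.EQ.meanTraces ∩ Set.Ioo (x - ε) (x + ε)).Infinite) ↔ lam ≤ x) ∧
      ∃ μ : Measure ℝ, IsProbabilityMeasure μ ∧
        (∃ K : Set ℝ, IsCompact K ∧ K ⊆ Set.Ici 0 ∧ μ Kᶜ = 0) ∧ Arith μ ∧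
        Eint μ ∧ En μ = 0 ∧ ∫ x, x ∂μ = lam ∧
        (∀ ν : Measure ℝ, IsProbabilityMeasure ν →
          (∃ K : Set ℝ, IsCompact K ∧ K ⊆ Set.Ici 0 ∧ ν Kᶜ = 0) → Arith ν → ν ≠ μ →
          lam < ∫ x, x ∂ν) ∧
        ∀ (f : ℝ → ℝ) (C ε : ℝ), Continuous f → (∀ x, 0 ≤ x → |f x| ≤ C * (1 + x)) → 0 < ε →
          ∃ (F : Finset ℤ[X]) (δ : ℝ), 0 < δ ∧
            ∀ p : ℤ[X], p.Monic → Irreducible p → TotPos p → p ∉ F → mtr p ≤ lam + δ →
              |rsum p (fun z => f z.re) / p.natDegree - ∫ x, f x ∂μ| ≤ ε ∧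
              |(p.discr : ℝ)| ≤ Real.exp (ε * (p.natDegree : ℝ) ^ 2) := by
  classical
  refine ⟨lamSSS, Pool.Agent.Y94.EQ.limit_points, ?_⟩
  obtain ⟨hlow, ⟨μ, h1, h2, h3⟩, h4⟩ := facts
  obtain ⟨-, hE, hz⟩ := h4 1000 μ h1 h2 h3
  refine ⟨μ, h1.1, ⟨Set.Icc 0 1000, isCompact_Icc, fun x hx => hx.1, h1.2⟩, h2, hE, hz, h3,
    ?_, ?_⟩
  · intro ν hν hK hA hne
    obtain ⟨B, -, hB⟩ := on_of_compact hν hK
    have g1 : lamSSS ≤ mean ν := hlow B ν hB hA
    refine lt_of_le_of_ne g1 fun h => hne ?_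
    exact unique_facts hB hA h.symm h1 h2 h3
  · intro f C ε hf hC hε
    obtain ⟨F, δ, a1, -, -, a2⟩ := Pool.Agent.Y94.EQ.uni_emp h1 h2 h3 hf hC hε
    obtain ⟨F', δ', b1, -, -, b2⟩ := Pool.Agent.Y94.EQ.energy_all hε
    refine ⟨F ∪ F', min δ δ', lt_min a1 b1, fun p c1 c2 c3 c4 c5 => ⟨?_, ?_⟩⟩
    · exact a2 p c1 c2 c3 (fun h => c4 (Finset.mem_union_left _ h))
        (c5.trans (by linarith [min_le_left δ δ']))
    · exact (b2 p c1 c2 c3 (fun h => c4 (Finset.mem_union_right _ h))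
        (c5.trans (by linarith [min_le_right δ δ']))).2

end Pool.Agent.Results.MP_8ca0c8_nt.LimitPoints
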